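import Pool.Agent.Run7.h744.DD.Iface
import Pool.Agent.W347.TQ.Ode
import Pool.Agent.W503.TQ.Est1
import Pool.Agent.W790.TQ.Est2
import Pool.Agent.W795.TQ.DFin

/-!
Project DD (helper744), piece WIN: regularity on the time scale `‖z‖⁻⁴`.
-/

set_option autoImplicit false

open MeasureTheory Set
open scoped InnerProductSpace

namespace Run7.h956.DD

open H772R2.NSR (Frame prim_cont)
open Pool.Agent.W795.TQ (Str Univ FH)

theorem t_WIN : Run7.h744.DD.S_WIN := by
  intro c hc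
  obtain ⟨ε, C7, hε, hC7, hOd⟩ := Pool.Agent.W347.TQ.proof_ode c hc
  refine ⟨ε, C7, hε, hC7, ?_⟩
  intro H K _ _ _ _ _ _ W m C ν τ u u1 z z1 Fr Un hν hτ hu t0 t ht0 ht htτ hsm
  have hS := Pool.Agent.W795.TQ.Str.mono hu htτ
  have htp : 0 < t := ht0.trans_lt ht
  have hFH : FH t (fun _ : ℝ => (0 : K)) (fun _ => 0) := by
    refine ⟨MemLp.zero, fun a b _ _ _ => ?_⟩
    simp
  have hsub : (volume.restrict (Ioc t0 t) : Measure ℝ) ≤ volume.restrict (Ioc 0 t) :=
    Measure.restrict_mono (Ioc_subset_Ioc_left ht0) le_rfl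
  obtain ⟨A0, hA0⟩ := hS.bd
  have h := hOd ν t0 t 0 0 A0 (fun s => ‖u1 s‖) (fun s => ‖z1 s‖) (fun _ => 0) (fun s => ‖z s‖)
    hν ht le_rfl le_rfl (fun s => norm_nonneg _) (fun s => norm_nonneg _) (fun _ => le_rfl)
    (fun s => norm_nonneg _) (hS.u1m.norm.mono_measure hsub) (hS.z1m.norm.mono_measure hsub)
    MemLp.zero (ae_mono hsub hA0)
    (((prim_cont hS.z1m hS.pz).norm).mono (Icc_subset_Icc_left ht0)) (by simp)
    (fun s hs => by
      have h1 := Pool.Agent.W503.TQ.proof_est1 H K W m C c ν t (fun _ => 0) (fun _ => 0) u u1 z z1 0 Fr Un hν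
        htp hFH hS le_rfl (fun _ _ => by simp) t0 ⟨ht0, ht.le⟩ s hs
      simpa using h1)
    (by
      have h2 := Pool.Agent.W790.TQ.proof_est2 H K W m C c ν t (fun _ => 0) (fun _ => 0) u u1 z z1 Fr Un hν
        htp hFH hS t0 ⟨ht0, ht⟩
      filter_upwards [h2] with s hs
      simpa using hs)
    (by simpa using hsm) t ⟨ht.le, le_rfl⟩
  simpa using h

end Run7.h956.DD
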